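import Pool.Agent.H62.LS.STEPa

/-!
STEP, part b: the broad part of one step.
-/

set_option autoImplicit false

namespace Pool.Agent.H62.LS

open MeasureTheory Set Pool.Agent.H83.LS
open scoped ENNReal NNReal

lemma supn_conv (hCONV : T_CONV) (χ b : ℝ × ℝ → ℂ) (hχ : TC χ) (hb : TC b) (C : ℝ≥0∞)
    (hC : ∫⁻ y, ‖Fi χ y‖ₑ ≤ C) : supn (Fi (fun ζ => χ ζ * b ζ)) ≤ C * supn (Fi b) := by
  unfold supn
  apply iSup_le
  intro y
  rw [hCONV χ b hχ hb y]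
  refine (enorm_integral_le_lintegral_enorm _).trans ?_
  calc ∫⁻ y', ‖Fi χ (y - y') * Fi b y'‖ₑ
      ≤ ∫⁻ y', ‖Fi χ (y - y')‖ₑ * supn (Fi b) := by
        apply lintegral_mono
        intro y'
        simp only
        rw [enorm_mul]
        gcongr
        exact le_supn _ _
    _ = (∫⁻ y', ‖Fi χ (y - y')‖ₑ) * supn (Fi b) :=
        lintegral_mul_const' _ _ (supn_Fi_ne_top b hb)
    _ = (∫⁻ y', ‖Fi χ y'‖ₑ) * supn (Fi b) := by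
        rw [lintegral_sub_left_eq_self (fun y' => ‖Fi χ y'‖ₑ) y]
    _ ≤ C * supn (Fi b) := by gcongr

lemma supn_sc (hSEC1 : T_SEC1) (hCONV : T_CONV) (hCUT : T_CUT) : ∃ C : ℝ≥0,
    ∀ μ ∈ Ioc (0 : ℝ) 1, ∀ s₀ ∈ Icc (-4 : ℝ) 4, ∀ b, TC b →
      supn (Fi (fun ζ => sc μ s₀ ζ * b ζ)) ≤ C * supn (Fi b) := by
  obtain ⟨⟨C, hC⟩, -⟩ := hSEC1
  refine ⟨C, ?_⟩
  intro μ hμ s₀ hs₀ b hb
  apply supn_conv hCONV _ b (hCUT.1 μ s₀ hμ.1).1 hb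
  have := hC 0 ⟨le_rfl, zero_le_one⟩ μ hμ s₀ hs₀ 0 (by simp)
  rwa [U_zero] at this

lemma l2_mul_le (χ b : ℝ × ℝ → ℂ) (h : ∀ ζ, ‖χ ζ‖ ≤ 1) : l2 (fun ζ => χ ζ * b ζ) ≤ l2 b := by
  unfold l2
  apply lintegral_mono
  intro ζ
  simp only
  gcongr
  rw [enorm_mul]
  calc ‖χ ζ‖ₑ * ‖b ζ‖ₑ ≤ 1 * ‖b ζ‖ₑ := by
        gcongr
        rw [← ofReal_norm]
        exact ENNReal.ofReal_le_one.2 (h ζ)
    _ = ‖b ζ‖ₑ := one_mul _

/-- arithmetic of the exponents -/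
lemma exp_arith (p η α ρ R : ℝ) (hη : 0 < η) (hα : 0 < α) (hα1 : α ≤ 1)
    (hρ : 0 < ρ) (hρ1 : ρ ≤ 1) (hR : 1 ≤ R) :
    α ^ (-3 : ℤ) * ((α ^ 2 * ρ * R) ^ (3 - p + η) *
      ((α ^ 2 * ρ * R) * (2 * (α ^ 2 * R))) ^ (p / 2 - 1)) * α ≤
      2 ^ (p / 2 - 1) * (R ^ (1 + η) * ρ ^ (2 - p / 2)) := by
  have hR0 : 0 < R := by linarith
  have hr : 0 < α ^ 2 * ρ * R := by positivity
  have h1 : (α ^ 2 * ρ * R) ^ (3 - p + η) ≤ (α ^ 2 * ρ * R) ^ (3 - p) * R ^ η := by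
    rw [Real.rpow_add hr]
    apply mul_le_mul_of_nonneg_left _ (by positivity)
    apply Real.rpow_le_rpow hr.le _ hη.le
    have : α ^ 2 * ρ ≤ 1 := by
      have h2 : α ^ 2 ≤ 1 := pow_le_one₀ hα.le hα1
      calc α ^ 2 * ρ ≤ 1 * 1 := mul_le_mul h2 hρ1 hρ.le zero_le_one
        _ = 1 := one_mul 1
    calc α ^ 2 * ρ * R ≤ 1 * R := mul_le_mul_of_nonneg_right this hR0.le
      _ = R := one_mul R
  have h2 : α ^ (-3 : ℤ) * ((α ^ 2 * ρ * R) ^ (3 - p) *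
      ((α ^ 2 * ρ * R) * (2 * (α ^ 2 * R))) ^ (p / 2 - 1)) * α =
      2 ^ (p / 2 - 1) * (R * ρ ^ (2 - p / 2)) := by
    have e1 : α ^ (-3 : ℤ) * α = (α ^ (-2 : ℝ)) := by
      rw [Real.rpow_neg hα.le]
      rw [show (2 : ℝ) = ((2 : ℕ) : ℝ) by norm_num, Real.rpow_natCast]
      rw [show ((-3 : ℤ)) = -((3 : ℕ) : ℤ) by norm_num, zpow_neg, zpow_natCast]
      field_simp
    rw [show α ^ (-3 : ℤ) * ((α ^ 2 * ρ * R) ^ (3 - p) *
      ((α ^ 2 * ρ * R) * (2 * (α ^ 2 * R))) ^ (p / 2 - 1)) * α =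
      (α ^ (-3 : ℤ) * α) * ((α ^ 2 * ρ * R) ^ (3 - p) *
      ((α ^ 2 * ρ * R) * (2 * (α ^ 2 * R))) ^ (p / 2 - 1)) by ring, e1]
    have l1 : Real.log (α ^ 2 * ρ * R) = 2 * Real.log α + Real.log ρ + Real.log R := by
      rw [Real.log_mul (by positivity) (by positivity), Real.log_mul (by positivity) (by positivity),
        Real.log_pow]
      norm_num
    have l2' : Real.log (2 * (α ^ 2 * R)) = Real.log 2 + 2 * Real.log α + Real.log R := by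
      rw [Real.log_mul (by positivity) (by positivity), Real.log_mul (by positivity) (by positivity),
        Real.log_pow]
      push_cast
      ring
    have l3 : Real.log ((α ^ 2 * ρ * R) * (2 * (α ^ 2 * R))) =
        Real.log 2 + 4 * Real.log α + Real.log ρ + 2 * Real.log R := by
      rw [Real.log_mul (by positivity) (by positivity), l1, l2']
      ring
    rw [Real.rpow_def_of_pos hα, Real.rpow_def_of_pos hr,
      Real.rpow_def_of_pos (show 0 < (α ^ 2 * ρ * R) * (2 * (α ^ 2 * R)) by positivity), l1, l3,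
      Real.rpow_def_of_pos (show (0 : ℝ) < 2 by norm_num), Real.rpow_def_of_pos hρ,
      ← Real.exp_add, ← Real.exp_add]
    nth_rewrite 3 [← Real.exp_log hR0]
    rw [← Real.exp_add, ← Real.exp_add]
    congr 1
    ring
  calc α ^ (-3 : ℤ) * ((α ^ 2 * ρ * R) ^ (3 - p + η) *
      ((α ^ 2 * ρ * R) * (2 * (α ^ 2 * R))) ^ (p / 2 - 1)) * α
      ≤ α ^ (-3 : ℤ) * (((α ^ 2 * ρ * R) ^ (3 - p) * R ^ η) *
      ((α ^ 2 * ρ * R) * (2 * (α ^ 2 * R))) ^ (p / 2 - 1)) * α := by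
        gcongr
    _ = R ^ η * (α ^ (-3 : ℤ) * ((α ^ 2 * ρ * R) ^ (3 - p) *
      ((α ^ 2 * ρ * R) * (2 * (α ^ 2 * R))) ^ (p / 2 - 1)) * α) := by ring
    _ = R ^ η * (2 ^ (p / 2 - 1) * (R * ρ ^ (2 - p / 2))) := by rw [h2]
    _ = _ := by
      rw [Real.rpow_add hR0, Real.rpow_one]
      ring

end Pool.Agent.H62.LS
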