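import Pool.Agent.H62.LS.Lin

/-!
LOR: Lorentz rescaling.
-/

set_option autoImplicit false

namespace Pool.Agent.H62.LS

open MeasureTheory Set Pool.Agent.H83.LS
open scoped ENNReal NNReal

lemma det_M (θ a : ℝ) :
    Real.cos θ * (a * Real.cos θ) - (-(a * Real.sin θ)) * Real.sin θ = a := by
  have := Real.sin_sq_add_cos_sq θ
  linear_combination a * this

lemma det_N (θ a : ℝ) :
    Real.cos θ * (a * Real.cos θ) - Real.sin θ * (-(a * Real.sin θ)) = a := by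
  have := Real.sin_sq_add_cos_sq θ
  linear_combination a * this

/-- the frequency map -/
noncomputable def MM (θ a : ℝ) : (ℝ × ℝ) →ₗ[ℝ] (ℝ × ℝ) :=
  LL (Real.cos θ) (-(a * Real.sin θ)) (Real.sin θ) (a * Real.cos θ)

lemma MM_apply (θ a : ℝ) (z : ℝ × ℝ) : MM θ a z =
    (z.1 * Real.cos θ - a * z.2 * Real.sin θ, z.1 * Real.sin θ + a * z.2 * Real.cos θ) := by
  unfold MM
  rw [LL_apply]
  apply Prod.ext
  · simp only; ring
  · simp only; ring

lemma lor_eq (θ a : ℝ) (b : ℝ × ℝ → ℂ) (z : ℝ × ℝ) : lor θ a b z = (a : ℂ) * b (MM θ a z) := by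
  unfold lor; rw [MM_apply]

lemma integral_MM (θ a : ℝ) (ha : 0 < a) (f : ℝ × ℝ → ℂ) :
    ∫ x, f x = (a : ℂ) * ∫ z, f (MM θ a z) := by
  unfold MM
  rw [integral_LL _ _ _ _ (by rw [det_M]; exact ha.ne'), det_M, abs_of_pos (inv_pos.2 ha),
    ← mul_assoc, ← Complex.ofReal_mul, mul_inv_cancel₀ ha.ne', Complex.ofReal_one, one_mul]

lemma lintegral_MM (θ a : ℝ) (ha : 0 < a) (f : ℝ × ℝ → ℝ≥0∞) :
    ∫⁻ x, f x = ENNReal.ofReal a * ∫⁻ z, f (MM θ a z) := by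
  unfold MM
  rw [lintegral_LL _ _ _ _ (by rw [det_M]; exact ha.ne'), det_M, abs_of_pos (inv_pos.2 ha),
    ← mul_assoc, ← ENNReal.ofReal_mul ha.le, mul_inv_cancel₀ ha.ne', ENNReal.ofReal_one, one_mul]

lemma MM_sq (θ a : ℝ) (z : ℝ × ℝ) :
    (MM θ a z).1 ^ 2 + (MM θ a z).2 ^ 2 = z.1 ^ 2 + a ^ 2 * z.2 ^ 2 := by
  rw [MM_apply]
  have := Real.sin_sq_add_cos_sq θ
  simp only
  linear_combination (z.1 ^ 2 + a ^ 2 * z.2 ^ 2) * this

lemma MM_w' (θ a : ℝ) (z : ℝ × ℝ) :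
    -((MM θ a z).1 * Real.sin θ) + (MM θ a z).2 * Real.cos θ = a * z.2 := by
  rw [MM_apply]
  have := Real.sin_sq_add_cos_sq θ
  simp only
  linear_combination (a * z.2) * this

lemma MM_w (θ a : ℝ) (z : ℝ × ℝ) :
    (MM θ a z).1 * Real.cos θ + (MM θ a z).2 * Real.sin θ = z.1 := by
  rw [MM_apply]
  have := Real.sin_sq_add_cos_sq θ
  simp only
  linear_combination z.1 * this

/-- support condition in the new variables -/
lemma tau_MM (θ a : ℝ) (ha : 0 < a) (ha1 : a ≤ 1) (z : ℝ × ℝ) (h : MM θ a z ∈ tau θ a) :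
    z ∈ QQ := by
  obtain ⟨h1, h2, h3⟩ := h
  rw [MM_sq] at h1 h2
  rw [MM_w, MM_w', abs_mul, abs_of_pos ha] at h3
  have h4 : |z.2| ≤ z.1 := le_of_mul_le_mul_left h3 ha
  have h5 : 0 ≤ z.1 := (abs_nonneg _).trans h4
  have h6 : z.2 ^ 2 ≤ z.1 ^ 2 := by
    rw [← sq_abs z.2]
    exact pow_le_pow_left₀ (abs_nonneg _) h4 2
  have h7 : a ^ 2 ≤ 1 := pow_le_one₀ ha.le ha1
  have h8 : a ^ 2 * z.2 ^ 2 ≤ z.1 ^ 2 := by
    calc a ^ 2 * z.2 ^ 2 ≤ 1 * z.2 ^ 2 := by gcongr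
      _ ≤ z.1 ^ 2 := by linarith
  refine ⟨?_, ?_, h4⟩
  · nlinarith
  · have : 0 ≤ a ^ 2 * z.2 ^ 2 := by positivity
    nlinarith

/-- the phase in the new variables -/
lemma sqrt_MM (θ a : ℝ) (z : ℝ × ℝ) (hz : 0 < z.1) :
    Real.sqrt ((MM θ a z).1 ^ 2 + (MM θ a z).2 ^ 2) = z.1 + a ^ 2 * ph a z := by
  rw [MM_sq]
  unfold ph
  have h0 : 0 ≤ z.1 ^ 2 + a ^ 2 * z.2 ^ 2 := by positivity
  have h1 : Real.sqrt (z.1 ^ 2 + a ^ 2 * z.2 ^ 2) ^ 2 = z.1 ^ 2 + a ^ 2 * z.2 ^ 2 :=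
    Real.sq_sqrt h0
  have h2 : 0 < Real.sqrt (z.1 ^ 2 + a ^ 2 * z.2 ^ 2) + z.1 := by positivity
  rw [← mul_div_assoc, ← sub_eq_iff_eq_add', eq_div_iff h2.ne']
  linear_combination h1

theorem lor_ts (θ a : ℝ) (ha : 0 < a) (S : Set (ℝ × ℝ)) (b : ℝ × ℝ → ℂ) (h : TS S b) :
    TS {z | MM θ a z ∈ S} (lor θ a b) := by
  have e0 : lor θ a b = fun z => (a : ℂ) * b (MM θ a z) := by
    funext z; exact lor_eq θ a b z
  obtain ⟨⟨h1, h2⟩, h3⟩ := h
  have hd : Real.cos θ * (a * Real.cos θ) - (-(a * Real.sin θ)) * Real.sin θ ≠ 0 := by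
    rw [det_M]; exact ha.ne'
  refine ⟨⟨?_, ?_⟩, ?_⟩
  · rw [e0]
    apply contDiff_const.mul
    exact h1.comp (LinearMap.toContinuousLinearMap (MM θ a)).contDiff
  · rw [e0]
    apply HasCompactSupport.mul_left
    obtain ⟨R, hR⟩ := h2.isCompact.isBounded.subset_closedBall (0 : ℝ × ℝ)
    have hce : Topology.IsClosedEmbedding (MM θ a) := by
      refine LinearMap.isClosedEmbedding_of_injective ?_
      exact LinearMap.ker_eq_bot.2 (LL_injective _ _ _ _ hd)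
    exact h2.comp_isClosedEmbedding hce
  · intro z hz
    rw [lor_eq] at hz
    exact h3 _ (right_ne_zero_of_mul hz)

theorem lor_ (θ a : ℝ) (b : ℝ × ℝ → ℂ) (ha : 0 < a) (ha1 : a ≤ 1) (h : TS (tau θ a) b) :
  TS QQ (lor θ a b) ∧
  (∀ (t : ℝ) (x : ℝ × ℝ), W t b x = U a (a ^ 2 * t) (lor θ a b)
    (x.1 * Real.cos θ + x.2 * Real.sin θ + t, a * (-(x.1 * Real.sin θ) + x.2 * Real.cos θ))) ∧
  l2 (lor θ a b) = ENNReal.ofReal a * l2 b ∧ supn (Fi (lor θ a b)) = supn (Fi b) := by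
  have hW : ∀ (t : ℝ) (x : ℝ × ℝ), W t b x = U a (a ^ 2 * t) (lor θ a b)
    (x.1 * Real.cos θ + x.2 * Real.sin θ + t,
      a * (-(x.1 * Real.sin θ) + x.2 * Real.cos θ)) := by
    intro t x
    unfold W U Fi
    rw [integral_MM θ a ha, ← integral_const_mul]
    congr 1
    funext z
    simp only [lor_eq]
    by_cases hz : b (MM θ a z) = 0
    · rw [hz]; ring
    · have hQ := tau_MM θ a ha ha1 z (h.2 _ hz)
      have hz1 : 0 < z.1 := lt_of_lt_of_le (by norm_num) hQ.1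
      rw [sqrt_MM θ a z hz1]
      have : (MM θ a z).1 * x.1 + (MM θ a z).2 * x.2 =
        (x.1 * Real.cos θ + x.2 * Real.sin θ) * z.1 +
          a * (-(x.1 * Real.sin θ) + x.2 * Real.cos θ) * z.2 := by
        rw [MM_apply]; simp only; ring
      have e1 : x.1 * (MM θ a z).1 + x.2 * (MM θ a z).2 + t * (z.1 + a ^ 2 * ph a z) =
        ((x.1 * Real.cos θ + x.2 * Real.sin θ + t) * z.1 +
          a * (-(x.1 * Real.sin θ) + x.2 * Real.cos θ) * z.2) + a ^ 2 * t * ph a z := by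
        linear_combination this
      rw [e1, e_add]
      ring
  refine ⟨?_, hW, ?_, ?_⟩
  · obtain ⟨h1, h2⟩ := lor_ts θ a ha _ b h
    exact ⟨h1, fun ζ hζ => tau_MM θ a ha ha1 ζ (h2 ζ hζ)⟩
  · unfold l2
    rw [lintegral_MM θ a ha (fun ζ => ‖b ζ‖ₑ ^ 2)]
    have : ∀ z, ‖lor θ a b z‖ₑ ^ 2 = ENNReal.ofReal (a ^ 2) * ‖b (MM θ a z)‖ₑ ^ 2 := by
      intro z
      rw [lor_eq, enorm_mul, mul_pow, ENNReal.ofReal_pow ha.le]
      congr 2
      rw [← ofReal_norm, Complex.norm_real, Real.norm_of_nonneg ha.le]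
    simp_rw [this]
    rw [lintegral_const_mul' _ _ ENNReal.ofReal_ne_top, ← mul_assoc, ← ENNReal.ofReal_mul ha.le]
    congr 2
    ring
  · have hWF : ∀ x, W 0 b x = Fi b x := by
      intro x
      unfold W Fi
      simp
    have hUF : ∀ y, U a 0 (lor θ a b) y = Fi (lor θ a b) y := by
      intro y
      unfold U
      congr 1
      funext z
      simp [e_zero]
    have hN : Function.Surjective
        (LL (Real.cos θ) (Real.sin θ) (-(a * Real.sin θ)) (a * Real.cos θ)) :=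
      LL_surjective _ _ _ _ (by rw [det_N]; exact ha.ne')
    unfold supn
    rw [← hN.iSup_comp]
    congr 1
    funext x
    have h1 := hW 0 x
    rw [hWF, mul_zero, hUF] at h1
    rw [h1]
    congr 2
    rw [LL_apply]
    apply Prod.ext
    · simp only; ring
    · simp only; ring

theorem lorT : T_LOR := fun θ a b ha ha1 h => lor_ θ a b ha ha1 h

end Pool.Agent.H62.LS
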