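import Pool.Agent.H62.LS.Lin

/-!
LORV: change of variables in space-time.
-/

set_option autoImplicit false

namespace Pool.Agent.H62.LS

open MeasureTheory Set Pool.Agent.H83.LS
open scoped ENNReal NNReal

theorem lorv : T_LORV := by
  intro θ a Φ ha hΦ
  have hcs : Real.cos θ * (a * Real.cos θ) - Real.sin θ * (-(a * Real.sin θ)) = a := by
    have := Real.sin_sq_add_cos_sq θ
    linear_combination a * this
  have hdet : Real.cos θ * (a * Real.cos θ) - Real.sin θ * (-(a * Real.sin θ)) ≠ 0 := by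
    rw [hcs]; exact ha.ne'
  have h1 : ∀ t : ℝ, ∫⁻ x : ℝ × ℝ, Φ ((x.1 * Real.cos θ + x.2 * Real.sin θ + t,
      a * (-(x.1 * Real.sin θ) + x.2 * Real.cos θ)), a ^ 2 * t) =
      ENNReal.ofReal a⁻¹ * ∫⁻ y : ℝ × ℝ, Φ (y, a ^ 2 * t) := by
    intro t
    have e1 : ∀ x : ℝ × ℝ, Φ ((x.1 * Real.cos θ + x.2 * Real.sin θ + t,
        a * (-(x.1 * Real.sin θ) + x.2 * Real.cos θ)), a ^ 2 * t) =
        (fun y : ℝ × ℝ => Φ (y + (t, 0), a ^ 2 * t))
          (LL (Real.cos θ) (Real.sin θ) (-(a * Real.sin θ)) (a * Real.cos θ) x) := by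
      intro x
      simp only [LL_apply]
      congr 2
      apply Prod.ext
      · simp only [Prod.fst_add]
        ring
      · simp only [Prod.snd_add]
        ring
    rw [lintegral_congr e1, lintegral_LL _ _ _ _ hdet
      (fun y : ℝ × ℝ => Φ (y + (t, 0), a ^ 2 * t)), hcs, abs_of_pos (inv_pos.2 ha)]
    congr 1
    exact lintegral_add_right_eq_self (fun y : ℝ × ℝ => Φ (y, a ^ 2 * t)) (t, 0)
  rw [lintegral_congr h1]
  have hm : Measurable (fun s : ℝ => ∫⁻ y : ℝ × ℝ, Φ (y, s)) := hΦ.lintegral_prod_left'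
  have ha2 : (a ^ 2) ≠ 0 := by positivity
  have hm2 : Measurable (fun t : ℝ => ∫⁻ y : ℝ × ℝ, Φ (y, a ^ 2 * t)) :=
    hm.comp (measurable_const_mul (a ^ 2))
  rw [lintegral_const_mul _ hm2]
  have h2 : ∫⁻ t : ℝ, ∫⁻ y : ℝ × ℝ, Φ (y, a ^ 2 * t) =
      ENNReal.ofReal |(a ^ 2)⁻¹| * ∫⁻ s : ℝ, ∫⁻ y : ℝ × ℝ, Φ (y, s) := by
    rw [← smul_eq_mul, ← lintegral_smul_measure, ← Real.map_volume_mul_left ha2,
      lintegral_map hm (measurable_const_mul _)]
  rw [h2, ← mul_assoc, ← ENNReal.ofReal_mul (by positivity)]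
  congr 2
  rw [abs_of_pos (by positivity)]
  rw [show ((-3 : ℤ)) = -((3 : ℕ) : ℤ) by norm_num, zpow_neg, zpow_natCast, ← mul_inv]
  congr 1
  ring

end Pool.Agent.H62.LS
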