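import Pool.Agent.H83.LS.Targets2
import Pool.Agent.H83.LS.Basic

/-!
Linear changes of variables in the plane.
-/

set_option autoImplicit false

namespace Pool.Agent.H62.LS

open MeasureTheory Set
open scoped ENNReal NNReal

/-- linear map of the plane with matrix `p q ; r s` -/
noncomputable def LL (p q r s : ℝ) : (ℝ × ℝ) →ₗ[ℝ] (ℝ × ℝ) :=
  Matrix.toLin (Module.Basis.finTwoProd ℝ) (Module.Basis.finTwoProd ℝ) !![p, q; r, s]

lemma LL_apply (p q r s : ℝ) (x : ℝ × ℝ) :
    LL p q r s x = (p * x.1 + q * x.2, r * x.1 + s * x.2) := by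
  unfold LL
  rw [Matrix.toLin_finTwoProd_apply]

lemma det_LL (p q r s : ℝ) : LinearMap.det (LL p q r s) = p * s - q * r := by
  unfold LL
  rw [LinearMap.det_toLin, Matrix.det_fin_two_of]

lemma LL_continuous (p q r s : ℝ) : Continuous (LL p q r s) :=
  (LL p q r s).continuous_of_finiteDimensional

lemma LL_injective (p q r s : ℝ) (h : p * s - q * r ≠ 0) : Function.Injective (LL p q r s) := by
  intro x y hxy
  rw [LL_apply, LL_apply, Prod.mk.injEq] at hxy
  obtain ⟨h1, h2⟩ := hxy
  have e1 : (p * s - q * r) * (x.1 - y.1) = 0 := by linear_combination s * h1 - q * h2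
  have e2 : (p * s - q * r) * (x.2 - y.2) = 0 := by linear_combination p * h2 - r * h1
  have e3 := (mul_eq_zero.1 e1).resolve_left h
  have e4 := (mul_eq_zero.1 e2).resolve_left h
  exact Prod.ext (by linarith) (by linarith)

lemma LL_surjective (p q r s : ℝ) (h : p * s - q * r ≠ 0) : Function.Surjective (LL p q r s) := by
  intro y
  refine ⟨((s * y.1 - q * y.2) / (p * s - q * r), (p * y.2 - r * y.1) / (p * s - q * r)), ?_⟩
  rw [LL_apply]
  apply Prod.ext
  · simp only
    rw [mul_div_assoc', mul_div_assoc', ← add_div, div_eq_iff h]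
    ring
  · simp only
    rw [mul_div_assoc', mul_div_assoc', ← add_div, div_eq_iff h]
    ring

lemma LL_emb (p q r s : ℝ) (h : p * s - q * r ≠ 0) : MeasurableEmbedding (LL p q r s) :=
  (LL_continuous p q r s).measurableEmbedding (LL_injective p q r s h)

lemma map_LL (p q r s : ℝ) (h : p * s - q * r ≠ 0) :
    Measure.map (LL p q r s) (volume : Measure (ℝ × ℝ)) =
      ENNReal.ofReal |(p * s - q * r)⁻¹| • volume := by
  have := Measure.map_linearMap_addHaar_eq_smul_addHaar (μ := (volume : Measure (ℝ × ℝ)))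
    (f := LL p q r s) (by rw [det_LL]; exact h)
  rw [this, det_LL]

lemma lintegral_LL (p q r s : ℝ) (h : p * s - q * r ≠ 0) (f : ℝ × ℝ → ℝ≥0∞) :
    ∫⁻ x, f (LL p q r s x) = ENNReal.ofReal |(p * s - q * r)⁻¹| * ∫⁻ y, f y := by
  rw [← (LL_emb p q r s h).lintegral_map, map_LL p q r s h, lintegral_smul_measure, smul_eq_mul]

lemma integral_LL (p q r s : ℝ) (h : p * s - q * r ≠ 0) (f : ℝ × ℝ → ℂ) :
    ∫ x, f (LL p q r s x) = ((|(p * s - q * r)⁻¹| : ℝ) : ℂ) * ∫ y, f y := by
  rw [← (LL_emb p q r s h).integral_map, map_LL p q r s h, integral_smul_measure,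
    ENNReal.toReal_ofReal (abs_nonneg _), Complex.real_smul]

end Pool.Agent.H62.LS
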