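import Pool.Agent.H62.LS.LOR

/-!
SBASE: small apertures.
-/

set_option autoImplicit false

namespace Pool.Agent.H62.LS

open MeasureTheory Set Pool.Agent.H83.LS
open scoped ENNReal NNReal

lemma TS.mono' {S S' : Set (ℝ × ℝ)} {b : ℝ × ℝ → ℂ} (h : TS S b) (hS : S ⊆ S') : TS S' b :=
  ⟨h.1, fun ζ hζ => hS (h.2 ζ hζ)⟩

lemma le_supn (g : ℝ × ℝ → ℂ) (y : ℝ × ℝ) : ‖g y‖ₑ ≤ supn g := le_iSup (fun y => ‖g y‖ₑ) y

lemma supn_Fi_ne_top (b : ℝ × ℝ → ℂ) (hb : TC b) : supn (Fi b) ≠ ⊤ := by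
  have hi : Integrable b := hb.1.continuous.integrable_of_hasCompactSupport hb.2
  have h1 : supn (Fi b) ≤ ∫⁻ ζ, ‖b ζ‖ₑ := by
    unfold supn
    apply iSup_le
    intro y
    unfold Fi
    refine (enorm_integral_le_lintegral_enorm _).trans (le_of_eq ?_)
    apply lintegral_congr
    intro ζ
    rw [enorm_mul, enorm_e, one_mul]
  exact ne_top_of_le_ne_top hi.2.ne h1

theorem sbase (hLINF : T_LINF) : T_SBASE := by
  intro p A₀ hp2 hp3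
  obtain ⟨C₁, hC₁⟩ := hLINF
  refine ⟨C₁ ^ (p - 2) * A₀ * (Real.toNNReal (3 ^ ((p - 2) / 2))), ?_⟩
  intro κ ρ R w S hHyp α hα hακ hαρ θ b _ hb
  obtain ⟨hκ, hκ1, hρ, hρ1, hR, hwm, _, hE⟩ := hHyp
  have hα1 : α ≤ 1 := hακ.trans hκ1
  have hR0 : 0 < R := by linarith
  have hbτ : TS (tau θ α) b := TS.mono' hb inter_subset_right
  have hbS : TS S b := TS.mono' hb inter_subset_left
  obtain ⟨hQ, hW, -, hsup⟩ := lor_ θ α b hα hα1 hbτ
  set B : ℝ≥0∞ := C₁ * ENNReal.ofReal (Real.sqrt (3 / ρ)) * supn (Fi b) with hB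
  have hpt : ∀ t ∈ Icc (0 : ℝ) (2 * R), ∀ x, ‖W t b x‖ₑ ≤ B := by
    intro t ht x
    rw [hW t x]
    refine (le_supn _ _).trans ((hC₁ α ⟨hα.le, hα1⟩ (α ^ 2 * t) _ hQ).trans ?_)
    rw [hsup, hB]
    gcongr
    have h0 : 0 ≤ α ^ 2 * t := mul_nonneg (by positivity) ht.1
    rw [abs_of_nonneg h0, le_div_iff₀ hρ]
    have h1 : α ^ 2 * t ≤ α ^ 2 * (2 * R) := by
      apply mul_le_mul_of_nonneg_left ht.2 (by positivity)
    calc (1 + α ^ 2 * t) * ρ ≤ (1 + α ^ 2 * (2 * R)) * ρ := by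
          apply mul_le_mul_of_nonneg_right _ hρ.le
          linarith
      _ = ρ + 2 * (α ^ 2 * ρ * R) := by ring
      _ ≤ 1 + 2 * 1 := by linarith
      _ = 3 := by norm_num
  have hpt2 : ∀ t ∈ Icc (0 : ℝ) (2 * R), ∀ x, w x.1 * ‖W t b x‖ₑ ^ p ≤
      B ^ (p - 2) * (w x.1 * ‖W t b x‖ₑ ^ 2) := by
    intro t ht x
    have e1 : ‖W t b x‖ₑ ^ p = ‖W t b x‖ₑ ^ (p - 2) * ‖W t b x‖ₑ ^ 2 := by
      rw [← ENNReal.rpow_natCast, ← ENNReal.rpow_add_of_nonneg _ _ (by linarith) (by norm_num)]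
      congr 1
      push_cast
      ring
    rw [e1]
    calc w x.1 * (‖W t b x‖ₑ ^ (p - 2) * ‖W t b x‖ₑ ^ 2) =
        ‖W t b x‖ₑ ^ (p - 2) * (w x.1 * ‖W t b x‖ₑ ^ 2) := by ring
      _ ≤ _ := by
        gcongr
        exact hpt t ht x
  have hBt : B ^ (p - 2) ≠ ⊤ := by
    apply ENNReal.rpow_ne_top_of_nonneg (by linarith)
    rw [hB]
    exact ENNReal.mul_ne_top (ENNReal.mul_ne_top ENNReal.coe_ne_top ENNReal.ofReal_ne_top)
      (supn_Fi_ne_top b hb.1)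
  have hmain : ∫⁻ t in Icc 0 (2 * R), ∫⁻ x : ℝ × ℝ, w x.1 * ‖W t b x‖ₑ ^ p ≤
      B ^ (p - 2) * (A₀ * ENNReal.ofReal (ρ * R) * l2 b) := by
    · calc ∫⁻ t in Icc 0 (2 * R), ∫⁻ x : ℝ × ℝ, w x.1 * ‖W t b x‖ₑ ^ p
          ≤ ∫⁻ t in Icc 0 (2 * R), ∫⁻ x : ℝ × ℝ, B ^ (p - 2) * (w x.1 * ‖W t b x‖ₑ ^ 2) := by
            apply setLIntegral_mono' measurableSet_Icc
            intro t ht
            apply lintegral_mono
            intro x
            exact hpt2 t ht x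
        _ = B ^ (p - 2) * ∫⁻ t in Icc 0 (2 * R), ∫⁻ x : ℝ × ℝ, (w x.1 * ‖W t b x‖ₑ ^ 2) := by
            simp_rw [lintegral_const_mul' _ _ hBt]
        _ ≤ B ^ (p - 2) * ∫⁻ t in Icc (-(8 * R)) (8 * R),
              ∫⁻ x : ℝ × ℝ, (w x.1 * ‖W t b x‖ₑ ^ 2) := by
            gcongr
            · linarith
            · norm_num
        _ ≤ _ := by
            gcongr
            exact hE b hbS
  refine hmain.trans ?_
  have e3 : B ^ (p - 2) = C₁ ^ (p - 2) * ENNReal.ofReal ((3 / ρ) ^ ((p - 2) / 2)) *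
      supn (Fi b) ^ (p - 2) := by
    rw [hB, ENNReal.mul_rpow_of_nonneg _ _ (by linarith),
      ENNReal.mul_rpow_of_nonneg _ _ (by linarith)]
    congr 2
    rw [ENNReal.ofReal_rpow_of_nonneg (Real.sqrt_nonneg _) (by linarith)]
    congr 1
    rw [Real.sqrt_eq_rpow, ← Real.rpow_mul (by positivity)]
    congr 1
    ring
  have e4 : ENNReal.ofReal ((3 / ρ) ^ ((p - 2) / 2)) * ENNReal.ofReal (ρ * R) =
      (Real.toNNReal (3 ^ ((p - 2) / 2)) : ℝ≥0∞) * ENNReal.ofReal (R * ρ ^ (2 - p / 2)) := by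
    change _ = ENNReal.ofReal _ * _
    rw [← ENNReal.ofReal_mul (by positivity), ← ENNReal.ofReal_mul (by positivity)]
    congr 1
    rw [Real.div_rpow (by norm_num) hρ.le]
    have : ρ ^ (2 - p / 2) = ρ / ρ ^ ((p - 2) / 2) := by
      rw [show 2 - p / 2 = 1 - (p - 2) / 2 by ring, Real.rpow_sub hρ, Real.rpow_one]
    rw [this]
    ring
  rw [e3]
  calc (C₁ : ℝ≥0∞) ^ (p - 2) * ENNReal.ofReal ((3 / ρ) ^ ((p - 2) / 2)) * supn (Fi b) ^ (p - 2) *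
        (A₀ * ENNReal.ofReal (ρ * R) * l2 b)
      = (C₁ : ℝ≥0∞) ^ (p - 2) * A₀ * (ENNReal.ofReal ((3 / ρ) ^ ((p - 2) / 2)) *
          ENNReal.ofReal (ρ * R)) * supn (Fi b) ^ (p - 2) * l2 b := by ring
    _ ≤ _ := by
      rw [e4]
      rw [ENNReal.coe_mul, ENNReal.coe_mul, ENNReal.coe_rpow_of_nonneg _ (by linarith)]
      apply le_of_eq
      ring

end Pool.Agent.H62.LS
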