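import Pool.Agent.H62.LS.STEPc

/-!
STEP: one step of the broad-narrow recursion.
-/

set_option autoImplicit false

namespace Pool.Agent.H62.LS

open MeasureTheory Set Pool.Agent.H83.LS
open scoped ENNReal NNReal

lemma measurable_W (b : ℝ × ℝ → ℂ) (hb : Measurable b) :
    Measurable (fun z : (ℝ × ℝ) × ℝ => W z.2 b z.1) := by
  unfold W
  have h1 : StronglyMeasurable (fun q : ((ℝ × ℝ) × ℝ) × (ℝ × ℝ) =>
      e (q.1.1.1 * q.2.1 + q.1.1.2 * q.2.2 +
        q.1.2 * Real.sqrt (q.2.1 ^ 2 + q.2.2 ^ 2)) * b q.2) := by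
    apply Measurable.stronglyMeasurable
    apply Measurable.mul
    · exact measurable_e.comp (by fun_prop)
    · exact hb.comp measurable_snd
  exact h1.integral_prod_right.measurable

lemma lint_sum {ι : Type*} (s : Finset ι) (f : ι → (ℝ × ℝ) × ℝ → ℝ≥0∞)
    (hf : ∀ i ∈ s, Measurable (f i)) (I : Set ℝ) :
    ∫⁻ t in I, ∫⁻ x, ∑ i ∈ s, f i (x, t) = ∑ i ∈ s, ∫⁻ t in I, ∫⁻ x, f i (x, t) := by
  have h1 : ∀ t, ∫⁻ x, ∑ i ∈ s, f i (x, t) = ∑ i ∈ s, ∫⁻ x, f i (x, t) := by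
    intro t
    exact lintegral_finsetSum s (fun i hi => (hf i hi).comp measurable_prodMk_right)
  simp_rw [h1]
  exact lintegral_finsetSum s (fun i hi => (hf i hi).lintegral_prod_left')

lemma lint_add (f g : (ℝ × ℝ) × ℝ → ℝ≥0∞) (hf : Measurable f) (I : Set ℝ) :
    ∫⁻ t in I, ∫⁻ x, (f (x, t) + g (x, t)) =
      (∫⁻ t in I, ∫⁻ x, f (x, t)) + ∫⁻ t in I, ∫⁻ x, g (x, t) := by
  have h1 : ∀ t, ∫⁻ x, (f (x, t) + g (x, t)) = (∫⁻ x, f (x, t)) + ∫⁻ x, g (x, t) := by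
    intro t
    exact lintegral_add_left (hf.comp measurable_prodMk_right) _
  simp_rw [h1]
  exact lintegral_add_left hf.lintegral_prod_left' _

lemma lint_const_mul (c : ℝ≥0∞) (hc : c ≠ ⊤) (f : (ℝ × ℝ) × ℝ → ℝ≥0∞) (I : Set ℝ) :
    ∫⁻ t in I, ∫⁻ x, c * f (x, t) = c * ∫⁻ t in I, ∫⁻ x, f (x, t) := by
  simp_rw [lintegral_const_mul' _ _ hc]

/-- integer index of a child -/
def jj (K : ℕ) (j : Fin (4 * K + 3)) : ℤ := (j : ℤ) - (2 * K + 1)

lemma sum_jj {M : Type*} [AddCommMonoid M] (K : ℕ) (f : ℤ → M) :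
    ∑ j ∈ Finset.Icc (-(2 * K + 1 : ℤ)) (2 * K + 1), f j = ∑ j : Fin (4 * K + 3), f (jj K j) := by
  symm
  apply Finset.sum_bij (fun (j : Fin (4 * K + 3)) _ => jj K j)
  · intro j _
    rw [Finset.mem_Icc]
    unfold jj
    have := j.2
    constructor <;> omega
  · intro j _ j' _ h
    unfold jj at h
    apply Fin.ext
    omega
  · intro j hj
    rw [Finset.mem_Icc] at hj
    refine ⟨⟨(j + (2 * K + 1)).toNat, by omega⟩, Finset.mem_univ _, ?_⟩
    unfold jj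
    simp only
    omega
  · intro j _
    rfl

theorem step (hBN : T_BN) (hBROAD : T_BROAD) (hSEC1 : T_SEC1) (hCONV : T_CONV)
    (hCUT : T_CUT) : T_STEP := by
  intro p hp2 hp3
  obtain ⟨Cs, hCs⟩ := supn_sc hSEC1 hCONV hCUT
  refine ⟨8000 * Cs ^ (p - 2), ?_⟩
  intro η A₀ K hη hK
  obtain ⟨Cn, hCn⟩ := hBN (4 * K + 3)
  obtain ⟨Ct, hCt⟩ := broad_triple hBROAD hSEC1 hCONV hCUT p hp2 hp3 η A₀ K hη (by omega)
  set T3 := (Finset.univ : Finset (Fin (4 * K + 3) × Fin (4 * K + 3) × Fin (4 * K + 3))).filter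
      (fun t => 3 ≤ |(t.1 : ℤ) - (t.2.1 : ℤ)| ∧ 3 ≤ |(t.1 : ℤ) - (t.2.2 : ℤ)| ∧
        3 ≤ |(t.2.1 : ℤ) - (t.2.2 : ℤ)|) with hT3
  refine ⟨Cn * (T3.card : ℝ≥0) * Ct, ?_⟩
  intro κ ρ R w S hHyp α A' hα hακ hr hPS θ b hθ hb
  have hHyp' := hHyp
  obtain ⟨hκ, hκ1, hρ, hρ1, hR, hwm, hws, hE⟩ := hHyp
  have hα1 : α ≤ 1 := hακ.trans hκ1
  have hR0 : 0 < R := by linarith
  have hK4 : (4 : ℝ) ≤ K := by exact_mod_cast hK
  have hK0 : (0 : ℝ) < K := by linarith
  set μ : ℝ := 1 / (2 * K) with hμdef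
  have hμ : 0 < μ := by positivity
  have hμ1 : μ ≤ 1 := by
    rw [hμdef, div_le_one (by positivity)]; linarith
  have hbτ : TS (tau θ α) b := TS.mono' hb inter_subset_right
  obtain ⟨hQ, hW, hl2, hsup⟩ := lor_ θ α b hα hα1 hbτ
  -- slopes
  set sl : Fin (4 * K + 3) → ℝ := fun j => (jj K j : ℝ) * μ with hsl
  have hslb : ∀ j, |sl j| ≤ 9 / 8 := by
    intro j
    have h1 : |(jj K j : ℝ)| ≤ 2 * K + 1 := by
      have : |jj K j| ≤ 2 * K + 1 := by
        rw [abs_le]; unfold jj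
        have := j.2
        constructor <;> omega
      exact_mod_cast this
    rw [hsl]
    simp only
    rw [abs_mul, abs_of_pos hμ, hμdef, mul_one_div, div_le_iff₀ (by positivity)]
    linarith
  have hsl4 : ∀ j, |sl j| ≤ 4 := fun j => (hslb j).trans (by norm_num)
  have hsc := fun j => hCUT.1 μ (sl j) hμ
  set bj : Fin (4 * K + 3) → ℝ × ℝ → ℂ := fun j => ch θ α (sc μ (sl j)) b with hbj
  have hbjTS : ∀ j, TS (S ∩ tau θ α) (bj j) := fun j => ch_TS θ α _ _ (hsc j).1 hb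
  have hsum1 : ∀ ζ ∈ QQ, ∑ j, sc μ (sl j) ζ = 1 := by
    intro ζ hζ
    have h1 := hCUT.2.1 μ (2 * K + 1) hμ (by
      rw [hμdef]; push_cast; rw [one_div_one_div]) ζ hζ
    rw [sum_jj K (fun j => sc μ (j * μ) ζ)] at h1
    exact h1
  -- decomposition of b
  have hbsum : b = fun ξ => ∑ j, bj j ξ := by
    funext ξ
    by_cases hξ : b ξ = 0
    · rw [hξ]
      symm
      apply Finset.sum_eq_zero
      intro j _
      simp only [hbj]
      unfold ch
      rw [hξ, mul_zero]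
    · have hz : zz θ α ξ ∈ QQ := by
        apply tau_MM θ α hα hα1
        rw [MM_zz θ α hα]
        exact hbτ.2 ξ hξ
      simp only [hbj]
      unfold ch
      rw [← Finset.sum_mul, hsum1 _ hz, one_mul]
  have hWsum : ∀ t x, W t b x = ∑ j, W t (bj j) x := by
    intro t x
    conv_lhs => rw [hbsum]
    unfold W
    rw [← integral_finsetSum]
    · congr 1
      funext ξ
      rw [Finset.mul_sum]
    · intro j _
      have hi : Integrable (bj j) := TC.integrable (hbjTS j).1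
      apply hi.bdd_mul (c := 1)
      · apply Measurable.aestronglyMeasurable
        exact measurable_e.comp (by fun_prop)
      · exact Filter.Eventually.of_forall (fun ξ => (norm_e _).le)
  have hmb : ∀ j, Measurable (bj j) := fun j => (hbjTS j).1.1.continuous.measurable
  have hmW : ∀ j, Measurable (fun z : (ℝ × ℝ) × ℝ => W z.2 (bj j) z.1) := fun j =>
    measurable_W _ (hmb j)
  have hmw : Measurable (fun z : (ℝ × ℝ) × ℝ => w z.1.1) :=
    hwm.comp (by fun_prop)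
  -- children are in smaller sectors
  have hchild : ∀ j, TS (S ∩ tau (thc θ α (sl j)) (α / K)) (bj j) := by
    intro j
    refine ⟨(hbjTS j).1, ?_⟩
    intro ξ hξ
    have h1 := (hbjTS j).2 ξ hξ
    refine ⟨h1.1, ?_⟩
    apply child_tau θ α (sl j) hα hα1 K (by omega) ξ h1.2
    have h2 := (hsc j).2.2 (zz θ α ξ) (left_ne_zero_of_mul hξ)
    exact h2.2.2
  have hcosj : ∀ j, |Real.cos (thc θ α (sl j))| + 2 * (α / K) ≤ 10 * κ := by
    intro j
    have h1 := abs_cos_thc θ α (sl j)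
    have h2 : |α * sl j| ≤ α * (9 / 8) := by
      rw [abs_mul, abs_of_pos hα]
      exact mul_le_mul_of_nonneg_left (hslb j) hα.le
    have h3 : α / K ≤ α / 4 := by
      apply div_le_div_of_nonneg_left hα.le (by norm_num) hK4
    linarith
  have hnarrow : ∀ j, ∫⁻ t in Icc 0 (2 * R), ∫⁻ x : ℝ × ℝ, w x.1 * ‖W t (bj j) x‖ₑ ^ p ≤
      A' * (Cs * supn (Fi b)) ^ (p - 2) * l2 (bj j) := by
    intro j
    refine (hPS (thc θ α (sl j)) (bj j) (hcosj j) (hchild j)).trans ?_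
    gcongr
    · have h1 := (lor_ θ α (bj j) hα hα1 (TS.mono' (hbjTS j) inter_subset_right)).2.2.2
      rw [← h1, ← hsup]
      simp only [hbj]
      rw [lor_ch θ α hα]
      exact hCs μ ⟨hμ, hμ1⟩ (sl j) (abs_le.1 (hsl4 j)) _ hQ.1
  have hl2sum : ∑ j, l2 (bj j) ≤ l2 b := by
    unfold l2
    rw [← lintegral_finsetSum]
    · apply lintegral_mono
      intro ξ
      simp only
      by_cases hξ : b ξ = 0
      · have : ∀ j, bj j ξ = 0 := by
          intro j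
          simp only [hbj]
          unfold ch
          rw [hξ, mul_zero]
        simp [this]
      · have hz : zz θ α ξ ∈ QQ := by
          apply tau_MM θ α hα hα1
          rw [MM_zz θ α hα]
          exact hbτ.2 ξ hξ
        have h1 : ∑ j, ‖sc μ (sl j) (zz θ α ξ)‖ = 1 := by
          have := hsum1 _ hz
          have h2 : ∑ j, ((‖sc μ (sl j) (zz θ α ξ)‖ : ℝ) : ℂ) = 1 := by
            rw [← this]
            apply Finset.sum_congr rfl
            intro j _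
            exact (sc_eq_norm _ _ _).symm
          exact_mod_cast h2
        have h3 : ∑ j, ‖sc μ (sl j) (zz θ α ξ)‖ₑ ^ 2 ≤ 1 := by
          calc ∑ j, ‖sc μ (sl j) (zz θ α ξ)‖ₑ ^ 2
              ≤ ∑ j, ENNReal.ofReal ‖sc μ (sl j) (zz θ α ξ)‖ := by
                apply Finset.sum_le_sum
                intro j _
                rw [← ofReal_norm, ← ENNReal.ofReal_pow (norm_nonneg _)]
                apply ENNReal.ofReal_le_ofReal
                have := (hsc j).2.1 (zz θ α ξ)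
                nlinarith [norm_nonneg (sc μ (sl j) (zz θ α ξ))]
            _ = ENNReal.ofReal (∑ j, ‖sc μ (sl j) (zz θ α ξ)‖) := by
                rw [ENNReal.ofReal_sum_of_nonneg]
                intro j _
                exact norm_nonneg _
            _ = 1 := by rw [h1, ENNReal.ofReal_one]
        calc ∑ j, ‖bj j ξ‖ₑ ^ 2 = (∑ j, ‖sc μ (sl j) (zz θ α ξ)‖ₑ ^ 2) * ‖b ξ‖ₑ ^ 2 := by
              rw [Finset.sum_mul]
              apply Finset.sum_congr rfl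
              intro j _
              simp only [hbj]
              unfold ch
              rw [enorm_mul, mul_pow]
          _ ≤ 1 * ‖b ξ‖ₑ ^ 2 := by gcongr
          _ = _ := one_mul _
    · intro j _
      exact (hmb j).enorm.pow_const 2
  -- the pointwise inequality
  have hpt : ∀ t x, w x.1 * ‖W t b x‖ₑ ^ p ≤
      8000 * (∑ j, w x.1 * ‖W t (bj j) x‖ₑ ^ p) +
      Cn * ∑ τ ∈ T3, w x.1 *
        (∏ i, ‖W t (ch θ α (sc μ ((![sl τ.1, sl τ.2.1, sl τ.2.2] : Fin 3 → ℝ) i)) b) x‖ₑ) ^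
          (p / 3) := by
    intro t x
    have h1 := hCn p (fun j => W t (bj j) x) hp2.le hp3
    rw [← hWsum] at h1
    calc w x.1 * ‖W t b x‖ₑ ^ p ≤ w x.1 * (8000 * ∑ j, ‖W t (bj j) x‖ₑ ^ p +
          Cn * ∑ τ ∈ T3, (‖W t (bj τ.1) x‖ₑ * ‖W t (bj τ.2.1) x‖ₑ *
            ‖W t (bj τ.2.2) x‖ₑ) ^ (p / 3)) := by gcongr
      _ = _ := by
        rw [← Finset.mul_sum, ← Finset.mul_sum]
        have : ∀ τ : Fin (4 * K + 3) × Fin (4 * K + 3) × Fin (4 * K + 3),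
            (∏ i, ‖W t (ch θ α (sc μ ((![sl τ.1, sl τ.2.1, sl τ.2.2] : Fin 3 → ℝ) i)) b) x‖ₑ) =
            ‖W t (bj τ.1) x‖ₑ * ‖W t (bj τ.2.1) x‖ₑ * ‖W t (bj τ.2.2) x‖ₑ := by
          intro τ
          rw [Fin.prod_univ_three]
          rfl
        simp_rw [this]
        ring
  have htriple : ∀ τ ∈ T3, ∫⁻ t in Icc 0 (2 * R), ∫⁻ x : ℝ × ℝ, w x.1 *
        (∏ i, ‖W t (ch θ α (sc μ ((![sl τ.1, sl τ.2.1, sl τ.2.2] : Fin 3 → ℝ) i)) b) x‖ₑ) ^
          (p / 3) ≤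
      Ct * ENNReal.ofReal (R ^ (1 + η) * ρ ^ (2 - p / 2)) * (supn (Fi b) ^ (p - 2) * l2 b) := by
    intro τ hτ
    rw [hT3, Finset.mem_filter] at hτ
    obtain ⟨-, h12, h13, h23⟩ := hτ
    have hgap : ∀ j j' : Fin (4 * K + 3), 3 ≤ |(j : ℤ) - (j' : ℤ)| →
        3 / (2 * K : ℝ) ≤ |sl j - sl j'| := by
      intro j j' h
      have h1 : sl j - sl j' = (((j : ℤ) - (j' : ℤ) : ℤ) : ℝ) * μ := by
        simp only [hsl]
        unfold jj
        push_cast
        ring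
      rw [h1, abs_mul, abs_of_pos hμ, hμdef, mul_one_div]
      apply div_le_div_of_nonneg_right _ (by positivity)
      rw [← Int.cast_abs]
      exact_mod_cast h
    have hgap' : ∀ j j' : Fin (4 * K + 3), 3 ≤ |(j' : ℤ) - (j : ℤ)| →
        3 / (2 * K : ℝ) ≤ |sl j - sl j'| := by
      intro j j' h
      rw [abs_sub_comm]
      exact hgap j' j h
    apply hCt κ ρ R w S hHyp' α hα hακ hr θ b _ hb
    · intro i
      fin_cases i
      · exact hsl4 _
      · exact hsl4 _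
      · exact hsl4 _
    · intro i j hij
      fin_cases i <;> fin_cases j
      · exact absurd rfl hij
      · exact hgap _ _ h12
      · exact hgap _ _ h13
      · exact hgap' _ _ h12
      · exact absurd rfl hij
      · exact hgap _ _ h23
      · exact hgap' _ _ h13
      · exact hgap' _ _ h23
      · exact absurd rfl hij
    · linarith
  have hmprod : ∀ τ : Fin (4 * K + 3) × Fin (4 * K + 3) × Fin (4 * K + 3),
      Measurable (fun z : (ℝ × ℝ) × ℝ => w z.1.1 *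
        (∏ i, ‖W z.2 (ch θ α (sc μ ((![sl τ.1, sl τ.2.1, sl τ.2.2] : Fin 3 → ℝ) i)) b) z.1‖ₑ) ^
          (p / 3)) := by
    intro τ
    apply hmw.mul
    apply Measurable.pow_const
    apply Finset.measurable_prod
    intro i _
    fin_cases i
    · exact (hmW τ.1).enorm
    · exact (hmW τ.2.1).enorm
    · exact (hmW τ.2.2).enorm
  have hmn : ∀ j, Measurable (fun z : (ℝ × ℝ) × ℝ => w z.1.1 * ‖W z.2 (bj j) z.1‖ₑ ^ p) :=
    fun j => hmw.mul ((hmW j).enorm.pow_const p)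
  calc ∫⁻ t in Icc 0 (2 * R), ∫⁻ x : ℝ × ℝ, w x.1 * ‖W t b x‖ₑ ^ p
      ≤ ∫⁻ t in Icc 0 (2 * R), ∫⁻ x : ℝ × ℝ, (8000 * (∑ j, w x.1 * ‖W t (bj j) x‖ₑ ^ p) +
        Cn * ∑ τ ∈ T3, w x.1 *
        (∏ i, ‖W t (ch θ α (sc μ ((![sl τ.1, sl τ.2.1, sl τ.2.2] : Fin 3 → ℝ) i)) b) x‖ₑ) ^
          (p / 3)) := by
        apply lintegral_mono
        intro t
        apply lintegral_mono
        intro x
        exact hpt t x
    _ = 8000 * (∑ j, ∫⁻ t in Icc 0 (2 * R), ∫⁻ x : ℝ × ℝ, w x.1 * ‖W t (bj j) x‖ₑ ^ p) +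
        Cn * ∑ τ ∈ T3, ∫⁻ t in Icc 0 (2 * R), ∫⁻ x : ℝ × ℝ, w x.1 *
        (∏ i, ‖W t (ch θ α (sc μ ((![sl τ.1, sl τ.2.1, sl τ.2.2] : Fin 3 → ℝ) i)) b) x‖ₑ) ^
          (p / 3) := by
        rw [← lint_sum Finset.univ
          (fun j (z : (ℝ × ℝ) × ℝ) => w z.1.1 * ‖W z.2 (bj j) z.1‖ₑ ^ p)
          (fun j _ => hmn j), ← lint_sum T3
          (fun τ (z : (ℝ × ℝ) × ℝ) => w z.1.1 *
        (∏ i, ‖W z.2 (ch θ α (sc μ ((![sl τ.1, sl τ.2.1, sl τ.2.2] : Fin 3 → ℝ) i)) b) z.1‖ₑ) ^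
          (p / 3)) (fun τ _ => hmprod τ)]
        rw [← lint_const_mul 8000 (by norm_num)
          (fun z => ∑ j, w z.1.1 * ‖W z.2 (bj j) z.1‖ₑ ^ p),
          ← lint_const_mul (Cn : ℝ≥0∞) ENNReal.coe_ne_top
          (fun z => ∑ τ ∈ T3, w z.1.1 *
        (∏ i, ‖W z.2 (ch θ α (sc μ ((![sl τ.1, sl τ.2.1, sl τ.2.2] : Fin 3 → ℝ) i)) b) z.1‖ₑ) ^
          (p / 3))]
        exact lint_add (fun z => 8000 * ∑ j, w z.1.1 * ‖W z.2 (bj j) z.1‖ₑ ^ p)
          (fun z => Cn * ∑ τ ∈ T3, w z.1.1 *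
        (∏ i, ‖W z.2 (ch θ α (sc μ ((![sl τ.1, sl τ.2.1, sl τ.2.2] : Fin 3 → ℝ) i)) b) z.1‖ₑ) ^
          (p / 3)) (measurable_const.mul (Finset.measurable_sum _ (fun j _ => hmn j))) _
    _ ≤ 8000 * (∑ j, A' * (Cs * supn (Fi b)) ^ (p - 2) * l2 (bj j)) +
        Cn * ∑ τ ∈ T3, Ct * ENNReal.ofReal (R ^ (1 + η) * ρ ^ (2 - p / 2)) *
          (supn (Fi b) ^ (p - 2) * l2 b) := by
        apply add_le_add
        · apply mul_le_mul_right
          exact Finset.sum_le_sum (fun j _ => hnarrow j)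
        · apply mul_le_mul_right
          exact Finset.sum_le_sum (fun τ hτ => htriple τ hτ)
    _ ≤ 8000 * (A' * (Cs * supn (Fi b)) ^ (p - 2) * l2 b) +
        Cn * ((T3.card : ℝ≥0∞) * (Ct * ENNReal.ofReal (R ^ (1 + η) * ρ ^ (2 - p / 2)) *
          (supn (Fi b) ^ (p - 2) * l2 b))) := by
        rw [← Finset.mul_sum, Finset.sum_const, nsmul_eq_mul]
        gcongr
    _ = _ := by
        rw [ENNReal.mul_rpow_of_nonneg _ _ (by linarith : 0 ≤ p - 2)]
        push_cast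
        rw [ENNReal.coe_rpow_of_nonneg _ (by linarith : 0 ≤ p - 2)]
        ring

end Pool.Agent.H62.LS
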