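import Pool.Agent.H62.LS.SBASE
import Pool.Agent.H62.LS.LORV

/-!
STEP, part a: children of a sector.
-/

set_option autoImplicit false

namespace Pool.Agent.H62.LS

open MeasureTheory Set Pool.Agent.H83.LS
open scoped ENNReal NNReal

/-- inverse of the frequency map -/
noncomputable def zz (θ a : ℝ) (ξ : ℝ × ℝ) : ℝ × ℝ :=
  (ξ.1 * Real.cos θ + ξ.2 * Real.sin θ, (-(ξ.1 * Real.sin θ) + ξ.2 * Real.cos θ) / a)

lemma zz_MM (θ a : ℝ) (ha : 0 < a) (z : ℝ × ℝ) : zz θ a (MM θ a z) = z := by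
  unfold zz
  rw [MM_w, MM_w', mul_div_cancel_left₀ _ ha.ne']

lemma MM_zz (θ a : ℝ) (ha : 0 < a) (ξ : ℝ × ℝ) : MM θ a (zz θ a ξ) = ξ := by
  rw [MM_apply]
  unfold zz
  have := Real.sin_sq_add_cos_sq θ
  apply Prod.ext
  · simp only
    rw [mul_div_cancel₀ _ ha.ne']
    linear_combination ξ.1 * this
  · simp only
    rw [mul_div_cancel₀ _ ha.ne']
    linear_combination ξ.2 * this

lemma contDiff_zz (θ a : ℝ) : ContDiff ℝ (⊤ : ℕ∞) (zz θ a) := by
  unfold zz
  fun_prop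

/-- the piece of `b` with cutoff `χ` in the rescaled variables -/
noncomputable def ch (θ a : ℝ) (χ b : ℝ × ℝ → ℂ) (ξ : ℝ × ℝ) : ℂ := χ (zz θ a ξ) * b ξ

lemma lor_ch (θ a : ℝ) (ha : 0 < a) (χ b : ℝ × ℝ → ℂ) :
    lor θ a (ch θ a χ b) = fun z => χ z * lor θ a b z := by
  funext z
  rw [lor_eq, lor_eq]
  unfold ch
  rw [zz_MM θ a ha]
  ring

lemma ch_TS {S : Set (ℝ × ℝ)} (θ a : ℝ) (χ b : ℝ × ℝ → ℂ) (hχ : TC χ) (hb : TS S b) :
    TS S (ch θ a χ b) := by
  refine ⟨⟨?_, ?_⟩, ?_⟩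
  · exact (hχ.1.comp (contDiff_zz θ a)).mul hb.1.1
  · exact hb.1.2.mul_left
  · intro ξ hξ
    exact hb.2 ξ (right_ne_zero_of_mul hξ)

/-- the angle of a child -/
noncomputable def thc (θ a s : ℝ) : ℝ := θ + Real.arctan (a * s)

lemma cos_thc (θ a s : ℝ) : Real.cos (thc θ a s) =
    (Real.cos θ - a * s * Real.sin θ) / Real.sqrt (1 + (a * s) ^ 2) := by
  unfold thc
  rw [Real.cos_add, Real.cos_arctan, Real.sin_arctan]
  ring

lemma sin_thc (θ a s : ℝ) : Real.sin (thc θ a s) =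
    (Real.sin θ + a * s * Real.cos θ) / Real.sqrt (1 + (a * s) ^ 2) := by
  unfold thc
  rw [Real.sin_add, Real.cos_arctan, Real.sin_arctan]
  ring

lemma abs_cos_thc (θ a s : ℝ) : |Real.cos (thc θ a s)| ≤ |Real.cos θ| + |a * s| := by
  rw [cos_thc, abs_div]
  have h1 : 1 ≤ Real.sqrt (1 + (a * s) ^ 2) := by
    rw [Real.one_le_sqrt]; nlinarith [sq_nonneg (a * s)]
  rw [abs_of_pos (lt_of_lt_of_le one_pos h1)]
  calc |Real.cos θ - a * s * Real.sin θ| / Real.sqrt (1 + (a * s) ^ 2)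
      ≤ |Real.cos θ - a * s * Real.sin θ| := div_le_self (abs_nonneg _) h1
    _ ≤ |Real.cos θ| + |a * s * Real.sin θ| := abs_sub _ _
    _ ≤ |Real.cos θ| + |a * s| := by
      rw [abs_mul (a * s)]
      have := Real.abs_sin_le_one θ
      have h2 : |a * s| * |Real.sin θ| ≤ |a * s| * 1 :=
        mul_le_mul_of_nonneg_left this (abs_nonneg _)
      linarith

lemma child_tau (θ a s : ℝ) (ha : 0 < a) (ha1 : a ≤ 1) (K : ℕ) (hK : 1 ≤ K) (ξ : ℝ × ℝ)
    (hξ : ξ ∈ tau θ a)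
    (h : |(zz θ a ξ).2 - s * (zz θ a ξ).1| ≤ 1 / (2 * K) * (zz θ a ξ).1) :
    ξ ∈ tau (thc θ a s) (a / K) := by
  obtain ⟨h1, h2, h3⟩ := hξ
  refine ⟨h1, h2, ?_⟩
  set z := zz θ a ξ with hz
  have hξz : ξ = MM θ a z := (MM_zz θ a ha ξ).symm
  have hw : ξ.1 * Real.cos θ + ξ.2 * Real.sin θ = z.1 := by rw [hξz, MM_w]
  have hw' : -(ξ.1 * Real.sin θ) + ξ.2 * Real.cos θ = a * z.2 := by rw [hξz, MM_w']
  have hK0 : (0 : ℝ) < K := by exact_mod_cast hK
  have hz1 : 0 ≤ z.1 := by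
    rw [hw] at h3
    have := (abs_nonneg _).trans h3
    exact nonneg_of_mul_nonneg_right this ha
  have hs : 0 < Real.sqrt (1 + (a * s) ^ 2) := by positivity
  rw [cos_thc, sin_thc]
  have e1 : -(ξ.1 * ((Real.sin θ + a * s * Real.cos θ) / Real.sqrt (1 + (a * s) ^ 2))) +
      ξ.2 * ((Real.cos θ - a * s * Real.sin θ) / Real.sqrt (1 + (a * s) ^ 2)) =
      a * (z.2 - s * z.1) / Real.sqrt (1 + (a * s) ^ 2) := by
    rw [← hw]
    have : a * (z.2 - s * (ξ.1 * Real.cos θ + ξ.2 * Real.sin θ)) =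
      a * z.2 - a * s * (ξ.1 * Real.cos θ + ξ.2 * Real.sin θ) := by ring
    rw [this, ← hw']
    ring
  have e2 : ξ.1 * ((Real.cos θ - a * s * Real.sin θ) / Real.sqrt (1 + (a * s) ^ 2)) +
      ξ.2 * ((Real.sin θ + a * s * Real.cos θ) / Real.sqrt (1 + (a * s) ^ 2)) =
      (z.1 + s * a * (a * z.2)) / Real.sqrt (1 + (a * s) ^ 2) := by
    rw [← hw, ← hw']
    ring
  rw [e1, e2, abs_div, abs_of_pos hs, ← mul_div_assoc]
  apply div_le_div_of_nonneg_right _ hs.le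
  rw [abs_mul, abs_of_pos ha]
  have h5 : s * z.2 ≥ -(z.1 / 2) := by
    have h6 : s * (z.2 - s * z.1) ≥ -(|s| * (1 / (2 * K) * z.1)) := by
      have : |s * (z.2 - s * z.1)| ≤ |s| * (1 / (2 * K) * z.1) := by
        rw [abs_mul]
        exact mul_le_mul_of_nonneg_left h (abs_nonneg _)
      linarith [neg_abs_le (s * (z.2 - s * z.1))]
    have h7 : |s| * (1 / (2 * K)) ≤ s ^ 2 + 1 / 2 := by
      have : (1 : ℝ) / (2 * K) ≤ 1 / 2 := by
        apply one_div_le_one_div_of_le (by norm_num)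
        have : (1 : ℝ) ≤ K := by exact_mod_cast hK
        linarith
      calc |s| * (1 / (2 * K)) ≤ |s| * (1 / 2) := mul_le_mul_of_nonneg_left this (abs_nonneg _)
        _ ≤ s ^ 2 + 1 / 2 := by
          rw [← sq_abs s]
          nlinarith [sq_nonneg (|s| - 1 / 4)]
    have h8 : |s| * (1 / (2 * K) * z.1) ≤ (s ^ 2 + 1 / 2) * z.1 := by
      rw [← mul_assoc]
      exact mul_le_mul_of_nonneg_right h7 hz1
    nlinarith
  have h9 : a ^ 2 ≤ 1 := pow_le_one₀ ha.le ha1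
  have h10 : a ^ 2 * (s * z.2) ≥ -(z.1 / 2) := by
    have : a ^ 2 * (s * z.2) ≥ a ^ 2 * (-(z.1 / 2)) := mul_le_mul_of_nonneg_left h5 (by positivity)
    nlinarith
  calc a * |z.2 - s * z.1| ≤ a * (1 / (2 * K) * z.1) := mul_le_mul_of_nonneg_left h ha.le
    _ = a / K * (z.1 / 2) := by field_simp
    _ ≤ a / K * (z.1 + s * a * (a * z.2)) := by
      apply mul_le_mul_of_nonneg_left _ (by positivity)
      nlinarith

lemma psi_nonneg (x : ℝ) : 0 ≤ psi x := by
  unfold psi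
  have := Real.smoothTransition.monotone (show x ≤ x + 1 by linarith)
  linarith

lemma XX_nonneg (x : ℝ) : 0 ≤ XX x := by
  unfold XX
  exact mul_nonneg (Real.smoothTransition.nonneg _) (Real.smoothTransition.nonneg _)

lemma sc_eq_norm (μ s₀ : ℝ) (ζ : ℝ × ℝ) : sc μ s₀ ζ = ((‖sc μ s₀ ζ‖ : ℝ) : ℂ) := by
  unfold sc
  rw [Complex.norm_real, Real.norm_of_nonneg (mul_nonneg (XX_nonneg _) (psi_nonneg _))]

/-- joint measurability of the evolution -/
lemma measurable_ph (a : ℝ) : Measurable (ph a) := by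
  unfold ph
  fun_prop

lemma measurable_U (a : ℝ) (b : ℝ × ℝ → ℂ) (hb : Measurable b) :
    Measurable (fun z : (ℝ × ℝ) × ℝ => U a z.2 b z.1) := by
  unfold U Fi
  have h1 : StronglyMeasurable (fun q : ((ℝ × ℝ) × ℝ) × (ℝ × ℝ) =>
      e (q.1.1.1 * q.2.1 + q.1.1.2 * q.2.2) * (e (q.1.2 * ph a q.2) * b q.2)) := by
    apply Measurable.stronglyMeasurable
    apply Measurable.mul
    · exact measurable_e.comp (by fun_prop)
    · apply Measurable.mul
      · apply measurable_e.comp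
        exact (by fun_prop : Measurable (fun q : ((ℝ × ℝ) × ℝ) × (ℝ × ℝ) => q.1.2)).mul
          ((measurable_ph a).comp measurable_snd)
      · exact hb.comp measurable_snd
  exact h1.integral_prod_right.measurable

/-- change of variables in space-time, bounded time intervals -/
lemma lorv_Icc (θ a A B : ℝ) (Φ : (ℝ × ℝ) × ℝ → ℝ≥0∞) (ha : 0 < a) (hΦ : Measurable Φ) :
    ∫⁻ t in Icc A B, ∫⁻ x : ℝ × ℝ, Φ ((x.1 * Real.cos θ + x.2 * Real.sin θ + t,
      a * (-(x.1 * Real.sin θ) + x.2 * Real.cos θ)), a ^ 2 * t) =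
    ENNReal.ofReal (a ^ (-3 : ℤ)) * ∫⁻ s in Icc (a ^ 2 * A) (a ^ 2 * B), ∫⁻ y : ℝ × ℝ, Φ (y, s) := by
  have h := lorv θ a (fun z => (Icc (a ^ 2 * A) (a ^ 2 * B)).indicator (fun _ => (1 : ℝ≥0∞)) z.2 * Φ z)
    ha (((measurable_const.indicator measurableSet_Icc).comp measurable_snd).mul hΦ)
  rw [← lintegral_indicator measurableSet_Icc, ← lintegral_indicator measurableSet_Icc]
  have ha2 : 0 < a ^ 2 := by positivity
  convert h using 2
  · funext t
    by_cases ht : t ∈ Icc A B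
    · rw [indicator_of_mem ht]
      apply lintegral_congr
      intro x
      have : a ^ 2 * t ∈ Icc (a ^ 2 * A) (a ^ 2 * B) :=
        ⟨mul_le_mul_of_nonneg_left ht.1 ha2.le, mul_le_mul_of_nonneg_left ht.2 ha2.le⟩
      simp only
      rw [indicator_of_mem this, one_mul]
    · rw [indicator_of_notMem ht]
      have : a ^ 2 * t ∉ Icc (a ^ 2 * A) (a ^ 2 * B) := by
        intro h'
        exact ht ⟨le_of_mul_le_mul_left h'.1 ha2, le_of_mul_le_mul_left h'.2 ha2⟩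
      symm
      simp only
      simp [indicator_of_notMem this]
  · apply lintegral_congr
    intro s
    by_cases hs : s ∈ Icc (a ^ 2 * A) (a ^ 2 * B)
    · rw [indicator_of_mem hs]
      apply lintegral_congr
      intro x
      simp only
      rw [indicator_of_mem hs, one_mul]
    · rw [indicator_of_notMem hs]
      symm
      simp [indicator_of_notMem hs]

end Pool.Agent.H62.LS
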