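import Pool.Agent.H62.LS.STEPb

/-!
STEP, part c: triples of transversal children.
-/

set_option autoImplicit false

namespace Pool.Agent.H62.LS

open MeasureTheory Set Pool.Agent.H83.LS
open scoped ENNReal NNReal

/-- the weight in rescaled variables -/
noncomputable def wt (θ a : ℝ) (w : ℝ → ℝ≥0∞) (z : (ℝ × ℝ) × ℝ) : ℝ≥0∞ :=
  w ((z.1.1 - z.2 / a ^ 2) * Real.cos θ - z.1.2 / a * Real.sin θ)

lemma measurable_wt (θ a : ℝ) (w : ℝ → ℝ≥0∞) (hw : Measurable w) : Measurable (wt θ a w) := by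
  unfold wt
  exact hw.comp (by fun_prop)

lemma wt_eq (θ a : ℝ) (ha : 0 < a) (w : ℝ → ℝ≥0∞) (t : ℝ) (x : ℝ × ℝ) :
    wt θ a w ((x.1 * Real.cos θ + x.2 * Real.sin θ + t,
      a * (-(x.1 * Real.sin θ) + x.2 * Real.cos θ)), a ^ 2 * t) = w x.1 := by
  unfold wt
  congr 1
  simp only
  rw [mul_div_cancel_left₀ _ ha.ne', mul_div_cancel_left₀ _ (pow_ne_zero 2 ha.ne')]
  have := Real.sin_sq_add_cos_sq θ
  linear_combination x.1 * this

lemma wt_slow (θ a κ ρ R : ℝ) (ha : 0 < a) (haκ : a ≤ κ) (hκ1 : κ ≤ 1) (hρ : 0 < ρ) (hR : 0 < R)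
    (hθ : |Real.cos θ| ≤ 10 * κ) (w : ℝ → ℝ≥0∞)
    (hw : ∀ x h : ℝ, w (x + h) ≤ ENNReal.ofReal ((1 + |h| / (κ * ρ * R)) ^ 2) * w x)
    (z z' : (ℝ × ℝ) × ℝ) :
    wt θ a w z' ≤ ((121 : ℝ≥0) : ℝ≥0∞) * ENNReal.ofReal
      ((1 + (‖z'.1 - z.1‖ + |z'.2 - z.2|) / (a ^ 2 * ρ * R)) ^ 2) * wt θ a w z := by
  have hκ : 0 < κ := lt_of_lt_of_le ha haκ
  unfold wt
  set X := (z.1.1 - z.2 / a ^ 2) * Real.cos θ - z.1.2 / a * Real.sin θ with hX
  set X' := (z'.1.1 - z'.2 / a ^ 2) * Real.cos θ - z'.1.2 / a * Real.sin θ with hX'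
  have h1 := hw X (X' - X)
  rw [add_sub_cancel] at h1
  refine h1.trans ?_
  rw [show ((121 : ℝ≥0) : ℝ≥0∞) = ENNReal.ofReal 121 by
    rw [ENNReal.ofReal, Real.toNNReal_ofNat], ← ENNReal.ofReal_mul (by norm_num)]
  gcongr
  set D := ‖z'.1 - z.1‖ with hD
  have hD0 : 0 ≤ D := norm_nonneg _
  have hD1 : |z'.1.1 - z.1.1| ≤ D := by
    have := norm_fst_le (z'.1 - z.1)
    rwa [Prod.fst_sub, Real.norm_eq_abs] at this
  have hD2 : |z'.1.2 - z.1.2| ≤ D := by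
    have := norm_snd_le (z'.1 - z.1)
    rwa [Prod.snd_sub, Real.norm_eq_abs] at this
  set E := |z'.2 - z.2| with hE
  have hE0 : 0 ≤ E := abs_nonneg _
  have h2 : |X' - X| ≤ (D + E / a ^ 2) * (10 * κ) + D / a := by
    have e1 : X' - X = ((z'.1.1 - z.1.1) - (z'.2 - z.2) / a ^ 2) * Real.cos θ -
        (z'.1.2 - z.1.2) / a * Real.sin θ := by
      rw [hX, hX']; ring
    rw [e1]
    calc |((z'.1.1 - z.1.1) - (z'.2 - z.2) / a ^ 2) * Real.cos θ -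
        (z'.1.2 - z.1.2) / a * Real.sin θ|
        ≤ |((z'.1.1 - z.1.1) - (z'.2 - z.2) / a ^ 2) * Real.cos θ| +
          |(z'.1.2 - z.1.2) / a * Real.sin θ| := abs_sub _ _
      _ ≤ (D + E / a ^ 2) * (10 * κ) + D / a := by
        apply add_le_add
        · rw [abs_mul]
          apply mul_le_mul _ hθ (abs_nonneg _) (by positivity)
          refine (abs_sub _ _).trans ?_
          rw [abs_div, abs_of_pos (show 0 < a ^ 2 by positivity)]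
          gcongr
        · rw [abs_mul, abs_div, abs_of_pos ha]
          calc |z'.1.2 - z.1.2| / a * |Real.sin θ| ≤ D / a * 1 := by
                apply mul_le_mul _ (Real.abs_sin_le_one θ) (abs_nonneg _) (by positivity)
                gcongr
            _ = D / a := mul_one _
  have hr : 0 < a ^ 2 * ρ * R := by positivity
  have h3 : |X' - X| / (κ * ρ * R) ≤ 11 * ((D + E) / (a ^ 2 * ρ * R)) := by
    rw [← mul_div_assoc, div_le_div_iff₀ (by positivity) hr]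
    have h4 : |X' - X| * a ^ 2 ≤ 11 * (D + E) * κ := by
      have ha2 : a ^ 2 ≤ 1 := pow_le_one₀ ha.le (haκ.trans hκ1)
      calc |X' - X| * a ^ 2 ≤ ((D + E / a ^ 2) * (10 * κ) + D / a) * a ^ 2 := by
            apply mul_le_mul_of_nonneg_right h2 (by positivity)
        _ = (a ^ 2 * D + E) * (10 * κ) + a * D := by
            field_simp
        _ ≤ (1 * D + E) * (10 * κ) + κ * D := by gcongr
        _ ≤ 11 * (D + E) * κ := by nlinarith [mul_nonneg hE0 hκ.le]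
    calc |X' - X| * (a ^ 2 * ρ * R) = |X' - X| * a ^ 2 * (ρ * R) := by ring
      _ ≤ 11 * (D + E) * κ * (ρ * R) := by
        apply mul_le_mul_of_nonneg_right h4 (by positivity)
      _ = 11 * (D + E) * (κ * ρ * R) := by ring
  have h5 : 0 ≤ (D + E) / (a ^ 2 * ρ * R) := by positivity
  have h6 : 0 ≤ |X' - X| / (κ * ρ * R) := by positivity
  calc (1 + |X' - X| / (κ * ρ * R)) ^ 2 ≤ (11 * (1 + (D + E) / (a ^ 2 * ρ * R))) ^ 2 := by
        apply pow_le_pow_left₀ (by positivity)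
        linarith
    _ = 121 * (1 + (D + E) / (a ^ 2 * ρ * R)) ^ 2 := by ring

theorem broad_triple (hBROAD : T_BROAD) (hSEC1 : T_SEC1) (hCONV : T_CONV) (hCUT : T_CUT)
    (p : ℝ) (hp2 : 2 < p) (hp3 : p ≤ 3) (η : ℝ) (A₀ : ℝ≥0) (K : ℕ) (hη : 0 < η) (hK : 1 ≤ K) :
    ∃ C : ℝ≥0, ∀ (κ ρ R : ℝ) (w : ℝ → ℝ≥0∞) (S : Set (ℝ × ℝ)), Hyp κ ρ R A₀ w S →
    ∀ (α : ℝ), 0 < α → α ≤ κ → 1 ≤ α ^ 2 * ρ * R → ∀ (θ : ℝ) (b : ℝ × ℝ → ℂ),
    |Real.cos θ| ≤ 10 * κ → TS (S ∩ tau θ α) b → ∀ s : Fin 3 → ℝ, (∀ i, |s i| ≤ 4) →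
    (∀ i j, i ≠ j → 3 / (2 * K : ℝ) ≤ |s i - s j|) →
    ∫⁻ t in Icc 0 (2 * R), ∫⁻ x : ℝ × ℝ,
      w x.1 * (∏ i, ‖W t (ch θ α (sc (1 / (2 * K)) (s i)) b) x‖ₑ) ^ (p / 3) ≤
      C * ENNReal.ofReal (R ^ (1 + η) * ρ ^ (2 - p / 2)) * (supn (Fi b) ^ (p - 2) * l2 b) := by
  obtain ⟨Cb, hCb⟩ := hBROAD p K η 121 hp2 hp3 hK hη
  obtain ⟨Cs, hCs⟩ := supn_sc hSEC1 hCONV hCUT
  refine ⟨Cb * A₀ * Cs ^ (p - 2) * Real.toNNReal (2 ^ (p / 2 - 1)), ?_⟩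
  intro κ ρ R w S hHyp α hα hακ hr θ b hθ hb s hs hgap
  obtain ⟨hκ, hκ1, hρ, hρ1, hR, hwm, hws, hE⟩ := hHyp
  have hα1 : α ≤ 1 := hακ.trans hκ1
  have hR0 : 0 < R := by linarith
  have hK0 : (0 : ℝ) < K := by exact_mod_cast hK
  have hK1 : (1 : ℝ) ≤ K := by exact_mod_cast hK
  have hμ : (0 : ℝ) < 1 / (2 * K) := by positivity
  have hμ1 : (1 : ℝ) / (2 * K) ≤ 1 := by
    rw [div_le_one (by positivity)]; linarith
  set μ : ℝ := 1 / (2 * K) with hμdef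
  have hsc := fun i => hCUT.1 μ (s i) hμ
  have hbτ : TS (tau θ α) b := TS.mono' hb inter_subset_right
  have hbS : TS S b := TS.mono' hb inter_subset_left
  obtain ⟨hQ, hW, hl2, hsup⟩ := lor_ θ α b hα hα1 hbτ
  set b' := lor θ α b with hb'
  have hchτ : ∀ i, TS (tau θ α) (ch θ α (sc μ (s i)) b) := fun i => ch_TS θ α _ _ (hsc i).1 hbτ
  have hchS : ∀ i, TS S (ch θ α (sc μ (s i)) b) := fun i => ch_TS θ α _ _ (hsc i).1 hbS
  have hlorch : ∀ i, lor θ α (ch θ α (sc μ (s i)) b) = fun z => sc μ (s i) z * b' z :=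
    fun i => lor_ch θ α hα _ _
  set bb : Fin 3 → ℝ × ℝ → ℂ := fun i z => sc μ (s i) z * b' z with hbb
  have hWi : ∀ i (t : ℝ) (x : ℝ × ℝ), W t (ch θ α (sc μ (s i)) b) x = U α (α ^ 2 * t) (bb i)
    (x.1 * Real.cos θ + x.2 * Real.sin θ + t,
      α * (-(x.1 * Real.sin θ) + x.2 * Real.cos θ)) := by
    intro i t x
    rw [(lor_ θ α _ hα hα1 (hchτ i)).2.1 t x, hlorch i]
  have hbbTC : ∀ i, TC (bb i) := fun i => TC.mul (hsc i).1.1 hQ.1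
  have hbbTS : ∀ i, TS {ζ | ζ ∈ QQ ∧ |ζ.2 - s i * ζ.1| ≤ ζ.1 / (2 * K)} (bb i) := by
    intro i
    refine ⟨hbbTC i, ?_⟩
    intro ζ hζ
    have h1 := (hsc i).2.2 ζ (left_ne_zero_of_mul hζ)
    refine ⟨hQ.2 ζ (right_ne_zero_of_mul hζ), ?_⟩
    have := h1.2.2
    rw [hμdef] at this
    rw [div_eq_inv_mul]
    rwa [one_div] at this
  have hl2i : ∀ i, l2 (bb i) = ENNReal.ofReal α * l2 (ch θ α (sc μ (s i)) b) := by
    intro i
    have := (lor_ θ α _ hα hα1 (hchτ i)).2.2.1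
    rwa [hlorch i] at this
  have hmU : ∀ i, Measurable (fun z : (ℝ × ℝ) × ℝ => U α z.2 (bb i) z.1) := fun i =>
    measurable_U α (bb i) (hbbTC i).1.continuous.measurable
  -- energy
  have henergy : ∀ i, ∫⁻ t in Icc (-(4 * (2 * (α ^ 2 * R)))) (4 * (2 * (α ^ 2 * R))),
      ∫⁻ y, wt θ α w (y, t) * ‖U α t (bb i) y‖ₑ ^ 2 ≤
      (A₀ : ℝ≥0∞) * ENNReal.ofReal (α ^ 2 * ρ * R) * l2 (bb i) := by
    intro i
    have h1 := hE _ (hchS i)
    have h2 := lorv_Icc θ α (-(8 * R)) (8 * R)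
      (fun z => wt θ α w z * ‖U α z.2 (bb i) z.1‖ₑ ^ 2) hα
      ((measurable_wt θ α w hwm).mul ((hmU i).enorm.pow_const 2))
    have h3 : ∫⁻ t in Icc (-(8 * R)) (8 * R), ∫⁻ x : ℝ × ℝ,
        w x.1 * ‖W t (ch θ α (sc μ (s i)) b) x‖ₑ ^ 2 =
        ENNReal.ofReal (α ^ (-3 : ℤ)) *
          ∫⁻ t in Icc (-(4 * (2 * (α ^ 2 * R)))) (4 * (2 * (α ^ 2 * R))),
      ∫⁻ y, wt θ α w (y, t) * ‖U α t (bb i) y‖ₑ ^ 2 := by
      rw [show -(4 * (2 * (α ^ 2 * R))) = α ^ 2 * (-(8 * R)) by ring,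
        show (4 * (2 * (α ^ 2 * R))) = α ^ 2 * (8 * R) by ring, ← h2]
      apply lintegral_congr
      intro t
      apply lintegral_congr
      intro x
      simp only
      rw [wt_eq θ α hα, hWi i t x]
    rw [h3] at h1
    have hα3 : ENNReal.ofReal (α ^ 3) * ENNReal.ofReal (α ^ (-3 : ℤ)) = 1 := by
      rw [← ENNReal.ofReal_mul (by positivity)]
      rw [show ((-3 : ℤ)) = -((3 : ℕ) : ℤ) by norm_num, zpow_neg, zpow_natCast,
        mul_inv_cancel₀ (by positivity), ENNReal.ofReal_one]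
    calc _ = ENNReal.ofReal (α ^ 3) * (ENNReal.ofReal (α ^ (-3 : ℤ)) *
          ∫⁻ t in Icc (-(4 * (2 * (α ^ 2 * R)))) (4 * (2 * (α ^ 2 * R))),
            ∫⁻ y, wt θ α w (y, t) * ‖U α t (bb i) y‖ₑ ^ 2) := by
          rw [← mul_assoc (ENNReal.ofReal (α ^ 3)), hα3, one_mul]
      _ ≤ ENNReal.ofReal (α ^ 3) * (A₀ * ENNReal.ofReal (ρ * R) *
          l2 (ch θ α (sc μ (s i)) b)) := by gcongr
      _ = (A₀ : ℝ≥0∞) * ENNReal.ofReal (α ^ 2 * ρ * R) * l2 (bb i) := by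
        rw [hl2i i]
        have : ENNReal.ofReal (α ^ 3) * ENNReal.ofReal (ρ * R) =
          ENNReal.ofReal (α ^ 2 * ρ * R) * ENNReal.ofReal α := by
          rw [← ENNReal.ofReal_mul (by positivity), ← ENNReal.ofReal_mul (by positivity)]
          congr 1
          ring
        calc ENNReal.ofReal (α ^ 3) * (A₀ * ENNReal.ofReal (ρ * R) *
              l2 (ch θ α (sc μ (s i)) b)) = A₀ * (ENNReal.ofReal (α ^ 3) *
              ENNReal.ofReal (ρ * R)) * l2 (ch θ α (sc μ (s i)) b) := by ring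
          _ = _ := by rw [this]; ring
  have hS' : α ^ 2 * ρ * R ≤ 2 * (α ^ 2 * R) := by
    have : α ^ 2 * ρ * R = ρ * (α ^ 2 * R) := by ring
    rw [this]
    have : 0 < α ^ 2 * R := by positivity
    nlinarith
  have hslow : ∀ z z' : (ℝ × ℝ) × ℝ, wt θ α w z' ≤
    ((121 : ℝ≥0) : ℝ≥0∞) * ENNReal.ofReal
      ((1 + (‖z'.1 - z.1‖ + |z'.2 - z.2|) / (α ^ 2 * ρ * R)) ^ 2) * wt θ α w z :=
    fun z z' => wt_slow θ α κ ρ R hα hακ hκ1 hρ hR0 hθ w hws z z'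
  have hbroad := hCb α ⟨hα.le, hα1⟩ (α ^ 2 * ρ * R) (2 * (α ^ 2 * R)) (wt θ α w) A₀ s bb hr hS'
    (measurable_wt θ α w hwm) hslow hgap hbbTS henergy
  -- transport back
  have h2 := lorv_Icc θ α 0 (2 * R)
      (fun z => wt θ α w z * (∏ i, ‖U α z.2 (bb i) z.1‖ₑ) ^ (p / 3)) hα
      ((measurable_wt θ α w hwm).mul
        ((Finset.measurable_prod _ (fun i _ => (hmU i).enorm)).pow_const (p / 3)))
  have h3 : ∫⁻ t in Icc 0 (2 * R), ∫⁻ x : ℝ × ℝ,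
      w x.1 * (∏ i, ‖W t (ch θ α (sc μ (s i)) b) x‖ₑ) ^ (p / 3) =
      ENNReal.ofReal (α ^ (-3 : ℤ)) * ∫⁻ t in Icc 0 (2 * (α ^ 2 * R)), ∫⁻ y,
        wt θ α w (y, t) * (∏ i, ‖U α t (bb i) y‖ₑ) ^ (p / 3) := by
    rw [show Icc 0 (2 * (α ^ 2 * R)) = Icc (α ^ 2 * 0) (α ^ 2 * (2 * R)) by
      congr 1 <;> ring, ← h2]
    apply lintegral_congr
    intro t
    apply lintegral_congr
    intro x
    simp only
    rw [wt_eq θ α hα]
    congr 2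
    apply Finset.prod_congr rfl
    intro i _
    rw [hWi i t x]
  rw [h3]
  have hprod : (∏ i, (supn (Fi (bb i))) ^ (p - 2) * l2 (bb i)) ^ (1 / 3 : ℝ) ≤
      (Cs * supn (Fi b)) ^ (p - 2) * (ENNReal.ofReal α * l2 b) := by
    have h4 : ∀ i, (supn (Fi (bb i))) ^ (p - 2) * l2 (bb i) ≤
        (Cs * supn (Fi b)) ^ (p - 2) * (ENNReal.ofReal α * l2 b) := by
      intro i
      gcongr
      · have := hCs μ ⟨hμ, hμ1⟩ (s i) (abs_le.1 (hs i)) b' hQ.1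
        rwa [hsup] at this
      · rw [← hl2]
        exact l2_mul_le _ _ (hsc i).2.1
    calc (∏ i, (supn (Fi (bb i))) ^ (p - 2) * l2 (bb i)) ^ (1 / 3 : ℝ)
        ≤ (∏ i : Fin 3, (Cs * supn (Fi b)) ^ (p - 2) *
            (ENNReal.ofReal α * l2 b)) ^ (1 / 3 : ℝ) := by
          apply ENNReal.rpow_le_rpow _ (by norm_num)
          exact Finset.prod_le_prod' (fun i _ => h4 i)
      _ = _ := by
        rw [Finset.prod_const, Finset.card_univ, Fintype.card_fin, ← ENNReal.rpow_natCast,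
          ← ENNReal.rpow_mul]
        norm_num
  calc ENNReal.ofReal (α ^ (-3 : ℤ)) * ∫⁻ t in Icc 0 (2 * (α ^ 2 * R)), ∫⁻ y,
        wt θ α w (y, t) * (∏ i, ‖U α t (bb i) y‖ₑ) ^ (p / 3)
      ≤ ENNReal.ofReal (α ^ (-3 : ℤ)) * (Cb * A₀ *
          ENNReal.ofReal ((α ^ 2 * ρ * R) ^ (3 - p + η) *
            ((α ^ 2 * ρ * R) * (2 * (α ^ 2 * R))) ^ (p / 2 - 1)) *
          (∏ i, (supn (Fi (bb i))) ^ (p - 2) * l2 (bb i)) ^ (1 / 3 : ℝ)) := by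
        gcongr
    _ ≤ ENNReal.ofReal (α ^ (-3 : ℤ)) * (Cb * A₀ *
          ENNReal.ofReal ((α ^ 2 * ρ * R) ^ (3 - p + η) *
            ((α ^ 2 * ρ * R) * (2 * (α ^ 2 * R))) ^ (p / 2 - 1)) *
          ((Cs * supn (Fi b)) ^ (p - 2) * (ENNReal.ofReal α * l2 b))) := by gcongr
    _ = (ENNReal.ofReal (α ^ (-3 : ℤ)) * ENNReal.ofReal ((α ^ 2 * ρ * R) ^ (3 - p + η) *
            ((α ^ 2 * ρ * R) * (2 * (α ^ 2 * R))) ^ (p / 2 - 1)) * ENNReal.ofReal α) *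
          (Cb * A₀ * Cs ^ (p - 2)) * (supn (Fi b) ^ (p - 2) * l2 b) := by
        rw [ENNReal.mul_rpow_of_nonneg _ _ (by linarith : 0 ≤ p - 2)]
        ring
    _ ≤ (ENNReal.ofReal (2 ^ (p / 2 - 1)) * ENNReal.ofReal (R ^ (1 + η) * ρ ^ (2 - p / 2))) *
          (Cb * A₀ * Cs ^ (p - 2)) * (supn (Fi b) ^ (p - 2) * l2 b) := by
        refine mul_le_mul' (mul_le_mul' ?_ le_rfl) le_rfl
        rw [← ENNReal.ofReal_mul (by positivity), ← ENNReal.ofReal_mul (by positivity),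
          ← ENNReal.ofReal_mul (by positivity)]
        apply ENNReal.ofReal_le_ofReal
        exact exp_arith p η α ρ R hη hα hα1 hρ hρ1 hR
    _ ≤ _ := by
        apply le_of_eq
        rw [ENNReal.coe_mul, ENNReal.coe_mul, ENNReal.coe_mul,
          ENNReal.coe_rpow_of_nonneg _ (by linarith : 0 ≤ p - 2)]
        rw [show ENNReal.ofReal (2 ^ (p / 2 - 1)) = ((Real.toNNReal (2 ^ (p / 2 - 1)) : ℝ≥0) : ℝ≥0∞)
          from rfl]
        ring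

end Pool.Agent.H62.LS
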